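import Pool.Agent.helper169_quad.Fin
import Pool.Agent.helper169_quad.Conv

/-!
# C(4)-T(4) small cancellation complexes have Property A
-/

set_option autoImplicit false

namespace Pool.Agent.Results.MP_db4510_al.PropertyA

open Pool.Agent.H169Q

/-- The path metric of the graph `G` on its set of vertices has Property A (Yu): for all
`R, ε > 0` there are `S > 0` and finite nonempty sets `A x ⊆ B(x, S) × ℕ` with
`|A x ∆ A y| < ε |A x ∩ A y|` whenever `d(x, y) ≤ R`. -/
def HasPropertyA {V : Type*} (G : SimpleGraph V) : Prop :=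
  ∀ R ε : ℝ, 0 < R → 0 < ε → ∃ S : ℝ, 0 < S ∧ ∃ A : V → Set (V × ℕ),
    (∀ x, (A x).Finite ∧ (A x).Nonempty ∧ ∀ p ∈ A x, (G.dist x p.1 : ℝ) ≤ S) ∧
    ∀ x y, (G.dist x y : ℝ) ≤ R →
      ((symmDiff (A x) (A y)).ncard : ℝ) < ε * ((A x ∩ A y).ncard : ℝ)

/-- Simply connected, uniformly locally finite C(4)-T(4) small cancellation complexes have
Property A. -/
theorem result {V E C : Type*} (X : Cx V E C) (hC : X.C4) (hT : X.T4)
    (hS : X.SimplyConnected) (N : ℕ) (hL : X.LocallyFinite N) : HasPropertyA X.graph :=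
  fun R ε hR hε => yu_of_propertyA (X.graph_conn hS) (X.ball_bd hS hL)
    (X.propertyA hC hT hS hL) R ε hR hε

end Pool.Agent.Results.MP_db4510_al.PropertyA
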